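import Mathlib
import Pool.Agent.R641.CN.Stm

/-! Piece B: a family of commuting triples with many independent parameters. -/

set_option autoImplicit false

namespace Pool.Agent.R339.CN

open Matrix Pool.Agent.R641.CN

universe u

theorem RI_of_inj {F : Type*} [Field F] {m n : Type*} [Fintype m] [Fintype n] [DecidableEq m]
    [DecidableEq n] (W : Matrix m n F) (h : ∀ v : m → F, v ᵥ* W = 0 → v = 0) :
    ∃ U : Matrix n m F, W * U = 1 := by
  have hinj : Function.Injective W.vecMulLinear :=
    (injective_iff_map_eq_zero _).2 (fun v hv => h v hv)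
  obtain ⟨g, hg⟩ := LinearMap.exists_leftInverse_of_injective W.vecMulLinear
    (LinearMap.ker_eq_bot.2 hinj)
  refine ⟨(LinearMap.toMatrix' g)ᵀ, ?_⟩
  ext i i'
  have h1 : g (W i) = Pi.single i 1 := by
    have h0 := DFunLike.congr_fun hg (Pi.single i 1)
    have h3 : W.vecMulLinear (Pi.single i 1) = W i := by
      rw [Matrix.vecMulLinear_apply, Matrix.single_one_vecMul]
      rfl
    rw [LinearMap.comp_apply, h3] at h0
    exact h0
  have h2 : (W * (LinearMap.toMatrix' g)ᵀ) i i' = (LinearMap.toMatrix' g *ᵥ W i) i' := by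
    simp only [Matrix.mul_apply, Matrix.mulVec, dotProduct, Matrix.transpose_apply]
    exact Finset.sum_congr rfl fun j _ => mul_comm _ _
  rw [h2, LinearMap.toMatrix'_mulVec, h1, Matrix.one_apply, Pi.single_apply]
  by_cases hi : i = i'
  · simp [hi]
  · simp [hi, Ne.symm hi]

theorem RI_mul {F : Type*} [Field F] {l m n : Type*} [Fintype l] [Fintype m] [Fintype n]
    [DecidableEq l] [DecidableEq m] {V : Matrix l m F} {W : Matrix m n F}
    (hV : ∃ U : Matrix m l F, V * U = 1) (hW : ∃ U : Matrix n m F, W * U = 1) :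
    ∃ U : Matrix n l F, (V * W) * U = 1 := by
  obtain ⟨U, hU⟩ := hV
  obtain ⟨U', hU'⟩ := hW
  refine ⟨U' * U, ?_⟩
  calc (V * W) * (U' * U) = V * (W * U') * U := by simp only [Matrix.mul_assoc]
    _ = 1 := by rw [hU', Matrix.mul_one, hU]

theorem ker_sol {F : Type*} [Field F] (a b : ℕ) (A : Fin 3 → Matrix (Fin b) (Fin a) F) :
    ∃ S : Matrix (Fin (3 * (b - a))) (Fin 3 × Fin b) F,
      (∃ U : Matrix (Fin 3 × Fin b) (Fin (3 * (b - a))) F, S * U = 1) ∧
      ∀ l i j s, ∑ r, S l (i, r) * A j r s = ∑ r, S l (j, r) * A i r s := by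
  classical
  let Ψ : (Fin 3 × Fin b → F) →ₗ[F] (Fin 3 × Fin a → F) :=
    { toFun := fun y es => ∑ r, (y (es.1 + 1, r) * A (es.1 + 2) r es.2 -
        y (es.1 + 2, r) * A (es.1 + 1) r es.2)
      map_add' := fun y z => by
        funext es
        simp only [Pi.add_apply]
        rw [← Finset.sum_add_distrib]
        exact Finset.sum_congr rfl fun r _ => by ring
      map_smul' := fun c y => by
        funext es
        simp only [Pi.smul_apply, smul_eq_mul, RingHom.id_apply]
        rw [Finset.mul_sum]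
        exact Finset.sum_congr rfl fun r _ => by ring }
  have hrank : 3 * (b - a) ≤ Module.finrank F (LinearMap.ker Ψ) := by
    have h1 := LinearMap.finrank_range_add_finrank_ker Ψ
    have h2 : Module.finrank F (LinearMap.range Ψ) ≤ Module.finrank F (Fin 3 × Fin a → F) :=
      Submodule.finrank_le _
    rw [Module.finrank_fintype_fun_eq_card] at h1 h2
    simp only [Fintype.card_prod, Fintype.card_fin] at h1 h2
    omega
  obtain ⟨f, hf⟩ := exists_linearIndependent_of_le_finrank hrank
  refine ⟨fun l => (f l).1, ?_, ?_⟩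
  · refine RI_of_inj _ fun v hv => ?_
    have h1 : ∑ l, v l • f l = 0 := by
      apply Subtype.ext
      rw [Submodule.coe_sum]
      funext p
      have h2 := congrFun hv p
      rw [Finset.sum_apply]
      simpa [Matrix.vecMul, dotProduct] using h2
    funext l
    exact Fintype.linearIndependent_iff.1 hf v h1 l
  · intro l i j s
    have key : ∀ e : Fin 3, ∑ r, (f l).1 (e + 1, r) * A (e + 2) r s =
        ∑ r, (f l).1 (e + 2, r) * A (e + 1) r s := by
      intro e
      have h1 : Ψ (f l).1 = 0 := (f l).2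
      have h2 : ∑ r, ((f l).1 (e + 1, r) * A (e + 2) r s -
        (f l).1 (e + 2, r) * A (e + 1) r s) = 0 := congrFun h1 (e, s)
      rw [Finset.sum_sub_distrib] at h2
      exact sub_eq_zero.1 h2
    have k0 : ∑ r, (f l).1 (1, r) * A 2 r s = ∑ r, (f l).1 (2, r) * A 1 r s := key 0
    have k1 : ∑ r, (f l).1 (2, r) * A 0 r s = ∑ r, (f l).1 (0, r) * A 2 r s := key 1
    have k2 : ∑ r, (f l).1 (0, r) * A 1 r s = ∑ r, (f l).1 (1, r) * A 0 r s := key 2
    fin_cases i <;> fin_cases j
    · rfl
    · exact k2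
    · exact k1.symm
    · exact k2.symm
    · rfl
    · exact k0
    · exact k1
    · exact k0.symm
    · rfl

section gen

variable {k K : Type u} [Field k] [Field K] [Algebra k K]

/-- matrix with entries in an intermediate field -/
def In {m n : Type*} (T : IntermediateField k K) (W : Matrix m n K) : Prop := ∀ i j, W i j ∈ T

theorem In.add {m n : Type*} {T : IntermediateField k K} {V W : Matrix m n K} (hV : In T V)
    (hW : In T W) : In T (V + W) := fun i j => add_mem (hV i j) (hW i j)

theorem In.sub {m n : Type*} {T : IntermediateField k K} {V W : Matrix m n K} (hV : In T V)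
    (hW : In T W) : In T (V - W) := fun i j => sub_mem (hV i j) (hW i j)

theorem In.mul {l m n : Type*} [Fintype m] {T : IntermediateField k K} {V : Matrix l m K}
    {W : Matrix m n K} (hV : In T V) (hW : In T W) : In T (V * W) :=
  fun i j => sum_mem fun x _ => mul_mem (hV i x) (hW x j)

theorem In.of_mul {l m n : Type*} [Fintype m] [Fintype n] [DecidableEq m] [DecidableEq n]
    {T : IntermediateField k K} {W : Matrix m n K} (hW : In T W)
    (hU : ∃ U : Matrix n m K, W * U = 1) {Y : Matrix l m K} (h : In T (Y * W)) : In T Y := by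
  obtain ⟨U0, hU0⟩ := hU
  let WT : Matrix m n T := fun i j => ⟨W i j, hW i j⟩
  obtain ⟨U, hU⟩ := RI_of_inj WT (by
    intro v hv
    have h1 : (fun i => (v i : K)) ᵥ* W = 0 := by
      funext j
      have h3 : algebraMap T K (∑ i, v i * WT i j) = algebraMap T K 0 :=
        congrArg (algebraMap T K) (congrFun hv j)
      rw [map_sum, map_zero] at h3
      show ∑ i, (v i : K) * W i j = 0
      rw [← h3]
      exact Finset.sum_congr rfl fun i _ => by rw [map_mul]; rfl
    have h2 : (fun i => (v i : K)) = 0 := by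
      calc (fun i => (v i : K)) = (fun i => (v i : K)) ᵥ* (W * U0) := by rw [hU0, vecMul_one]
        _ = 0 := by rw [← vecMul_vecMul, h1, zero_vecMul]
    funext i
    exact Subtype.ext (congrFun h2 i))
  let U1 : Matrix n m K := fun i j => (U i j : K)
  have hU1 : W * U1 = 1 := by
    ext i j
    have h3 := congrArg (fun z : T => (z : K)) (congrFun (congrFun hU i) j)
    have h4 : (((WT * U) i j : T) : K) = (W * U1) i j := by
      show algebraMap T K (∑ x, WT i x * U x j) = ∑ x, W i x * (U x j : K)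
      rw [map_sum]
      exact Finset.sum_congr rfl fun x _ => by rw [map_mul]; rfl
    have h5 : (((1 : Matrix m m T) i j : T) : K) = (1 : Matrix m m K) i j := by
      by_cases hij : i = j
      · subst hij
        rw [Matrix.one_apply_eq, Matrix.one_apply_eq]
        rfl
      · rw [Matrix.one_apply_ne hij, Matrix.one_apply_ne hij]
        rfl
    rw [← h4, ← h5]
    exact h3
  have h6 : Y = (Y * W) * U1 := by rw [Matrix.mul_assoc, hU1, Matrix.mul_one]
  rw [h6]
  exact h.mul (fun i j => (U i j).2)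

theorem generic_RI {σ : Type*} {xx : σ → K} (hx : AlgebraicIndependent k xx) {m n : Type*}
    [Fintype m] [Fintype n] [DecidableEq m] [DecidableEq n] (v : m → n → σ)
    (hv : ∀ i j i' j', v i j = v i' j' → i = i' ∧ j = j')
    (hc : Fintype.card m ≤ Fintype.card n) :
    ∃ U : Matrix n m K, (Matrix.of fun i j => xx (v i j)) * U = 1 := by
  classical
  obtain ⟨e⟩ := Function.Embedding.nonempty_of_card_le hc
  let N : Matrix m m (MvPolynomial σ k) := fun i j => MvPolynomial.X (v i (e j))
  have hN : N.det ≠ 0 := by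
    intro h
    let pt : σ → k := fun s => if ∃ i, s = v i (e i) then 1 else 0
    have h1 : (MvPolynomial.eval pt) N.det = 0 := by rw [h, map_zero]
    rw [RingHom.map_det] at h1
    have h2 : (MvPolynomial.eval pt).mapMatrix N = 1 := by
      ext i j
      have h3 : (MvPolynomial.eval pt).mapMatrix N i j = pt (v i (e j)) :=
        MvPolynomial.eval_X _
      rw [h3]
      by_cases hij : i = j
      · subst hij
        rw [Matrix.one_apply_eq]
        exact if_pos ⟨i, rfl⟩
      · rw [Matrix.one_apply_ne hij]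
        refine if_neg ?_
        rintro ⟨i', hi'⟩
        obtain ⟨h4, h5⟩ := hv _ _ _ _ hi'
        exact hij (h4.trans (e.injective h5).symm)
    rw [h2, Matrix.det_one] at h1
    exact one_ne_zero h1
  let NK : Matrix m m K := fun i j => xx (v i (e j))
  have hNK : NK.det ≠ 0 := by
    have h1 : NK.det = MvPolynomial.aeval xx N.det := by
      rw [AlgHom.map_det]
      congr 1
      ext i j
      exact (MvPolynomial.aeval_X xx (v i (e j))).symm
    rw [h1]
    intro h0
    exact hN (hx (by rw [h0, map_zero]))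
  let E : Matrix n m K := fun j i => if j = e i then 1 else 0
  have hE : (Matrix.of fun i j => xx (v i j)) * E = NK := by
    ext i j
    show ∑ x, xx (v i x) * (if x = e j then 1 else 0) = xx (v i (e j))
    simp
  refine ⟨E * NK⁻¹, ?_⟩
  rw [← Matrix.mul_assoc, hE, Matrix.mul_nonsing_inv _ (isUnit_iff_ne_zero.2 hNK)]

/-- three matrices side by side -/
def cat {m n : Type*} (W : Fin 3 → Matrix m n K) : Matrix m (Fin 3 × n) K := fun r p => W p.1 r p.2

theorem mul_cat {l m n : Type*} [Fintype m] (Y : Matrix l m K) (W : Fin 3 → Matrix m n K) :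
    Y * cat W = cat (fun i => Y * W i) := rfl

theorem In_cat {m n : Type*} {T : IntermediateField k K} {W : Fin 3 → Matrix m n K}
    (h : ∀ i, In T (W i)) : In T (cat W) := fun r p => h p.1 r p.2

theorem recover {a b c : ℕ} (T : IntermediateField k K) (A : Fin 3 → Matrix (Fin b) (Fin a) K)
    (B : Fin 3 → Matrix (Fin c) (Fin b) K) (C : Fin 3 → Matrix (Fin c) (Fin a) K)
    (P : Matrix (Fin b) (Fin c) K) (Q : Matrix (Fin a) (Fin c) K) (R : Matrix (Fin a) (Fin b) K)
    (h1 : ∀ i, In T (C i)) (h2 : ∀ i, In T (A i + P * C i))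
    (h3 : ∀ i, In T (Q * C i + R * A i)) (h4 : ∀ i, In T (B i - C i * R))
    (h5 : ∀ i, In T (P * (B i - C i * R) - A i * R))
    (hCA : ∃ U : Matrix (Fin 3 × Fin a) (Fin c ⊕ Fin b) K, (fromRows (cat C) (cat A)) * U = 1)
    (hB : ∃ U : Matrix (Fin 3 × Fin b) (Fin c) K, cat B * U = 1) :
    (∀ i, In T (A i)) ∧ (∀ i, In T (B i)) ∧ In T P ∧ In T Q ∧ In T R := by
  have hW : fromRows (cat C) (cat fun i => A i + P * C i) =
      (fromBlocks (1 : Matrix (Fin c) (Fin c) K) 0 P (1 : Matrix (Fin b) (Fin b) K)) *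
        fromRows (cat C) (cat A) := by
    rw [fromBlocks_mul_fromRows, Matrix.one_mul, Matrix.one_mul, Matrix.zero_mul, add_zero,
      mul_cat, add_comm]
    rfl
  have hRI : ∃ U : Matrix (Fin 3 × Fin a) (Fin c ⊕ Fin b) K,
      fromRows (cat C) (cat fun i => A i + P * C i) * U = 1 := by
    rw [hW]
    refine RI_mul ⟨fromBlocks (1 : Matrix (Fin c) (Fin c) K) 0 (-P)
      (1 : Matrix (Fin b) (Fin b) K), ?_⟩ hCA
    rw [fromBlocks_multiply]
    simp
  have hWT : In T (fromRows (cat C) (cat fun i => A i + P * C i)) := by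
    rintro (r | r) p
    · exact h1 p.1 r p.2
    · exact h2 p.1 r p.2
  have hY : In T (fromCols (Q - R * P) R) := by
    refine hWT.of_mul hRI ?_
    have h6 : fromCols (Q - R * P) R * fromRows (cat C) (cat fun i => A i + P * C i) =
        cat (fun i => Q * C i + R * A i) := by
      rw [fromCols_mul_fromRows, mul_cat, mul_cat]
      have h7 : ∀ i, (Q - R * P) * C i + R * (A i + P * C i) = Q * C i + R * A i := by
        intro i
        rw [Matrix.sub_mul, Matrix.mul_add, Matrix.mul_assoc]
        abel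
      funext r p
      exact congrFun (congrFun (h7 p.1) r) p.2
    rw [h6]
    exact In_cat h3
  have hQ' : In T (Q - R * P) := fun i j => hY i (Sum.inl j)
  have hR : In T R := fun i j => hY i (Sum.inr j)
  have hBT : ∀ i, In T (B i) := by
    intro i
    have h6 : B i = (B i - C i * R) + C i * R := by abel
    rw [h6]
    exact (h4 i).add ((h1 i).mul hR)
  have hPT : In T P := by
    refine (In_cat hBT).of_mul hB ?_
    rw [mul_cat]
    refine In_cat fun i => ?_
    have h6 : P * B i = (P * (B i - C i * R) - A i * R) + (A i + P * C i) * R := by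
      rw [Matrix.mul_sub, Matrix.add_mul, Matrix.mul_assoc]
      abel
    rw [h6]
    exact (h5 i).add ((h2 i).mul hR)
  refine ⟨fun i => ?_, hBT, hPT, ?_, hR⟩
  · have h6 : A i = (A i + P * C i) - P * C i := by abel
    rw [h6]
    exact (h2 i).sub (hPT.mul (h1 i))
  · have h6 : Q = (Q - R * P) + R * P := by abel
    rw [h6]
    exact hQ'.add (hR.mul hPT)

/-- index type of the variables -/
abbrev Sg (a b c : ℕ) : Type := (Fin 3 × Fin b × Fin a) ⊕ (Fin 3 × Fin c × Fin a) ⊕
  (Fin b × Fin c) ⊕ (Fin a × Fin b) ⊕ (Fin a × Fin c) ⊕ (Fin c × Fin (3 * (b - a)))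

theorem card_Sg {a b c : ℕ} (hab : a ≤ b) :
    Fintype.card (Sg a b c) = 4 * a * b + 4 * b * c + a * c := by
  obtain ⟨e, rfl⟩ := Nat.exists_eq_add_of_le hab
  simp only [Fintype.card_sum, Fintype.card_prod, Fintype.card_fin, Nat.add_sub_cancel_left]
  ring

/-- the strictly block upper triangular matrix -/
def xm {a b c : ℕ} (A : Matrix (Fin b) (Fin a) K) (B : Matrix (Fin c) (Fin b) K)
    (C : Matrix (Fin c) (Fin a) K) :
    Matrix (Fin c ⊕ (Fin b ⊕ Fin a)) (Fin c ⊕ (Fin b ⊕ Fin a)) K :=
  fromBlocks 0 (fromCols B C) 0 (fromBlocks 0 A 0 0)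

def Lm {a b c : ℕ} (P : Matrix (Fin b) (Fin c) K) (Q : Matrix (Fin a) (Fin c) K)
    (R : Matrix (Fin a) (Fin b) K) :
    Matrix (Fin c ⊕ (Fin b ⊕ Fin a)) (Fin c ⊕ (Fin b ⊕ Fin a)) K :=
  fromBlocks 1 0 (fromRows P Q) (fromBlocks 1 0 R 1)

theorem Lm_mul {a b c : ℕ} (P : Matrix (Fin b) (Fin c) K) (Q : Matrix (Fin a) (Fin c) K)
    (R : Matrix (Fin a) (Fin b) K) : Lm (-P) (R * P - Q) (-R) * Lm P Q R = 1 := by
  unfold Lm
  rw [fromBlocks_multiply]
  simp only [Matrix.one_mul, Matrix.mul_one, Matrix.zero_mul, Matrix.mul_zero, add_zero, zero_add,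
    fromBlocks_mul_fromRows, fromBlocks_multiply]
  have h1 : fromRows (-P) (R * P - Q) + fromRows P (-R * P + Q) = 0 := by
    funext r s
    rcases r with r | r
    · show (-P) r s + P r s = 0
      simp
    · show (R * P - Q) r s + (-R * P + Q) r s = 0
      have : (R * P - Q) + (-R * P + Q) = 0 := by
        rw [Matrix.neg_mul]; abel
      exact congrFun (congrFun this r) s
  rw [h1]
  have h2 : (-R + R : Matrix (Fin a) (Fin b) K) = 0 := by abel
  rw [h2, fromBlocks_one, fromBlocks_one]

theorem xm_mul {a b c : ℕ} (A A' : Matrix (Fin b) (Fin a) K) (B B' : Matrix (Fin c) (Fin b) K)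
    (C C' : Matrix (Fin c) (Fin a) K) :
    xm A B C * xm A' B' C' = xm 0 0 (B * A') := by
  unfold xm
  rw [fromBlocks_multiply]
  simp only [Matrix.zero_mul, Matrix.mul_zero, add_zero, zero_add,
    fromCols_mul_fromBlocks, fromBlocks_multiply]

theorem conj_xm {a b c : ℕ} (P : Matrix (Fin b) (Fin c) K) (Q : Matrix (Fin a) (Fin c) K)
    (R : Matrix (Fin a) (Fin b) K) (A : Matrix (Fin b) (Fin a) K) (B : Matrix (Fin c) (Fin b) K)
    (C : Matrix (Fin c) (Fin a) K) :
    ∃ (X : Matrix (Fin c) (Fin c) K) (Y : Matrix (Fin b ⊕ Fin a) (Fin c) K)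
      (Z : Matrix (Fin a) (Fin b) K),
    Lm P Q R * xm A B C * Lm (-P) (R * P - Q) (-R) =
      fromBlocks X (fromCols (B - C * R) C) Y
        (fromBlocks (P * (B - C * R) - A * R) (A + P * C) Z (Q * C + R * A)) := by
  refine ⟨fromCols B C * fromRows (-P) (R * P - Q), fromRows P Q *
    (fromCols B C * fromRows (-P) (R * P - Q)) +
    (fromBlocks (1 : Matrix (Fin b) (Fin b) K) 0 R (1 : Matrix (Fin a) (Fin a) K)) *
    ((fromBlocks (0 : Matrix (Fin b) (Fin b) K) A 0 (0 : Matrix (Fin a) (Fin a) K)) *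
    fromRows (-P) (R * P - Q)), Q * (B - C * R) - R * (A * R), ?_⟩
  rw [Matrix.mul_assoc]
  unfold Lm xm
  rw [fromBlocks_multiply, fromBlocks_multiply]
  congr 1
  · simp only [Matrix.one_mul, Matrix.mul_one, Matrix.zero_mul, Matrix.mul_zero, add_zero,
      zero_add]
  · simp only [Matrix.one_mul, Matrix.mul_one, Matrix.zero_mul, Matrix.mul_zero, add_zero,
      zero_add, fromCols_mul_fromBlocks]
    congr 1
    rw [Matrix.mul_neg, ← sub_eq_add_neg]
  · simp only [Matrix.one_mul, Matrix.mul_one, Matrix.zero_mul, Matrix.mul_zero, add_zero,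
      zero_add]
  · simp only [Matrix.one_mul, Matrix.mul_one, Matrix.zero_mul, Matrix.mul_zero, add_zero,
      zero_add, fromCols_mul_fromBlocks, fromBlocks_multiply, fromRows_mul_fromCols,
      fromBlocks_add]
    congr 1
    · rw [Matrix.mul_neg, Matrix.mul_neg, ← sub_eq_add_neg, ← sub_eq_add_neg]
    · rw [add_comm]
    · rw [Matrix.mul_neg, Matrix.mul_neg, Matrix.mul_neg, ← sub_eq_add_neg, ← sub_eq_add_neg]

theorem xm_zero {a b c : ℕ} : (xm (K := K) (a := a) (b := b) (c := c) 0 0 0) = 0 := by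
  ext (i | i | i) (j | j | j) <;> rfl

theorem main (a b c : ℕ) (hbc : b + c ≤ 3 * a) (hc : c ≤ 3 * (b - a))
    (xx : Sg a b c → K) (hx : AlgebraicIndependent k xx) :
    ∃ M : Fin 3 → Matrix (Fin c ⊕ (Fin b ⊕ Fin a)) (Fin c ⊕ (Fin b ⊕ Fin a)) K,
      (∀ i j, M i * M j = M j * M i) ∧ (∀ i, M i ^ 3 = 0) ∧
      ∀ s, xx s ∈ IntermediateField.adjoin k {z : K | ∃ i v w, z = M i v w} := by
  classical
  let A : Fin 3 → Matrix (Fin b) (Fin a) K := fun i r s => xx (Sum.inl (i, r, s))
  let C : Fin 3 → Matrix (Fin c) (Fin a) K := fun i r s => xx (Sum.inr (Sum.inl (i, r, s)))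
  let P : Matrix (Fin b) (Fin c) K := fun r s => xx (Sum.inr (Sum.inr (Sum.inl (r, s))))
  let R : Matrix (Fin a) (Fin b) K := fun r s => xx (Sum.inr (Sum.inr (Sum.inr (Sum.inl (r, s)))))
  let Q : Matrix (Fin a) (Fin c) K :=
    fun r s => xx (Sum.inr (Sum.inr (Sum.inr (Sum.inr (Sum.inl (r, s))))))
  let t : Matrix (Fin c) (Fin (3 * (b - a))) K :=
    fun r s => xx (Sum.inr (Sum.inr (Sum.inr (Sum.inr (Sum.inr (r, s))))))
  let F : IntermediateField k K := IntermediateField.adjoin k {z : K | ∃ i r s, z = A i r s}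
  have hAF : ∀ i r s, A i r s ∈ F :=
    fun i r s => IntermediateField.subset_adjoin _ _ ⟨i, r, s, rfl⟩
  obtain ⟨S, ⟨U, hU⟩, hS⟩ := ker_sol (F := F) a b (fun i r s => ⟨A i r s, hAF i r s⟩)
  let SK : Matrix (Fin (3 * (b - a))) (Fin 3 × Fin b) K := fun l p => (S l p : K)
  have hSKF : In F SK := fun l p => (S l p).2
  have hSK : ∃ U : Matrix (Fin 3 × Fin b) (Fin (3 * (b - a))) K, SK * U = 1 := by
    let U1 : Matrix (Fin 3 × Fin b) (Fin (3 * (b - a))) K := fun p l => (U p l : K)
    refine ⟨U1, ?_⟩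
    ext i j
    have h3 := congrArg (algebraMap F K) (congrFun (congrFun hU i) j)
    have h4 : algebraMap F K ((S * U) i j) = (SK * U1) i j := by
      show algebraMap F K (∑ x, S i x * U x j) = ∑ x, SK i x * (U x j : K)
      rw [map_sum]
      exact Finset.sum_congr rfl fun x _ => by rw [map_mul]; rfl
    rw [← h4, h3]
    by_cases hij : i = j
    · subst hij
      rw [Matrix.one_apply_eq, Matrix.one_apply_eq, map_one]
    · rw [Matrix.one_apply_ne hij, Matrix.one_apply_ne hij, map_zero]
  have hSA : ∀ l i j s, ∑ r, SK l (i, r) * A j r s = ∑ r, SK l (j, r) * A i r s := by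
    intro l i j s
    have h := congrArg (algebraMap F K) (hS l i j s)
    rw [map_sum, map_sum] at h
    exact h
  let B : Fin 3 → Matrix (Fin c) (Fin b) K := fun i r s => (t * SK) r (i, s)
  have hBcat : cat B = t * SK := rfl
  have hBA : ∀ i j, B i * A j = B j * A i := by
    intro i j
    ext r s
    have h : ∀ i j : Fin 3, ∑ x, (∑ l, t r l * SK l (i, x)) * A j x s =
        ∑ l, t r l * ∑ x, SK l (i, x) * A j x s := by
      intro i j
      simp_rw [Finset.sum_mul, Finset.mul_sum]
      rw [Finset.sum_comm]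
      exact Finset.sum_congr rfl fun l _ => Finset.sum_congr rfl fun x _ => by ring
    show ∑ x, (∑ l, t r l * SK l (i, x)) * A j x s = ∑ x, (∑ l, t r l * SK l (j, x)) * A i x s
    rw [h, h]
    exact Finset.sum_congr rfl fun l _ => by rw [hSA]
  have hconj : ∀ X Y : Matrix (Fin c ⊕ (Fin b ⊕ Fin a)) (Fin c ⊕ (Fin b ⊕ Fin a)) K,
      (Lm P Q R * X * Lm (-P) (R * P - Q) (-R)) * (Lm P Q R * Y * Lm (-P) (R * P - Q) (-R)) =
      Lm P Q R * (X * Y) * Lm (-P) (R * P - Q) (-R) := by
    intro X Y
    calc _ = Lm P Q R * (X * ((Lm (-P) (R * P - Q) (-R) * Lm P Q R) * Y)) *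
          Lm (-P) (R * P - Q) (-R) := by simp only [Matrix.mul_assoc]
      _ = _ := by rw [Lm_mul, Matrix.one_mul]
  let M : Fin 3 → Matrix (Fin c ⊕ (Fin b ⊕ Fin a)) (Fin c ⊕ (Fin b ⊕ Fin a)) K :=
    fun i => Lm P Q R * xm (A i) (B i) (C i) * Lm (-P) (R * P - Q) (-R)
  have hMM : ∀ i j, M i * M j =
      Lm P Q R * xm 0 0 (B i * A j) * Lm (-P) (R * P - Q) (-R) := by
    intro i j
    show (Lm P Q R * xm (A i) (B i) (C i) * Lm (-P) (R * P - Q) (-R)) *
      (Lm P Q R * xm (A j) (B j) (C j) * Lm (-P) (R * P - Q) (-R)) = _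
    rw [hconj, xm_mul]
  refine ⟨M, ?_, ?_, ?_⟩
  · intro i j
    rw [hMM, hMM, hBA]
  · intro i
    rw [pow_succ, pow_two, hMM]
    show _ * (Lm P Q R * xm (A i) (B i) (C i) * Lm (-P) (R * P - Q) (-R)) = _
    rw [hconj, xm_mul, Matrix.zero_mul, xm_zero, Matrix.mul_zero, Matrix.zero_mul]
  · set T : IntermediateField k K :=
      IntermediateField.adjoin k {z : K | ∃ i v w, z = M i v w} with hT
    have hMT : ∀ i v w, M i v w ∈ T :=
      fun i v w => IntermediateField.subset_adjoin _ _ ⟨i, v, w, rfl⟩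
    have hblk : ∀ i, In T (C i) ∧ In T (A i + P * C i) ∧ In T (Q * C i + R * A i) ∧
        In T (B i - C i * R) ∧ In T (P * (B i - C i * R) - A i * R) := by
      intro i
      obtain ⟨X, Y, Z, hXYZ⟩ := conj_xm P Q R (A i) (B i) (C i)
      have h : M i = fromBlocks X (fromCols (B i - C i * R) (C i)) Y
        (fromBlocks (P * (B i - C i * R) - A i * R) (A i + P * C i) Z (Q * C i + R * A i)) := hXYZ
      refine ⟨fun r s => ?_, fun r s => ?_, fun r s => ?_, fun r s => ?_, fun r s => ?_⟩
      · have h1 := hMT i (Sum.inl r) (Sum.inr (Sum.inr s))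
        rw [h] at h1
        exact h1
      · have h1 := hMT i (Sum.inr (Sum.inl r)) (Sum.inr (Sum.inr s))
        rw [h] at h1
        exact h1
      · have h1 := hMT i (Sum.inr (Sum.inr r)) (Sum.inr (Sum.inr s))
        rw [h] at h1
        exact h1
      · have h1 := hMT i (Sum.inl r) (Sum.inr (Sum.inl s))
        rw [h] at h1
        exact h1
      · have h1 := hMT i (Sum.inr (Sum.inl r)) (Sum.inr (Sum.inl s))
        rw [h] at h1
        exact h1
    have hCA : ∃ U : Matrix (Fin 3 × Fin a) (Fin c ⊕ Fin b) K,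
        (fromRows (cat C) (cat A)) * U = 1 := by
      let v : (Fin c ⊕ Fin b) → (Fin 3 × Fin a) → Sg a b c := fun m p =>
        Sum.elim (fun r => Sum.inr (Sum.inl (p.1, r, p.2))) (fun r => Sum.inl (p.1, r, p.2)) m
      have h1 : fromRows (cat C) (cat A) = Matrix.of fun i j => xx (v i j) := by
        ext (r | r) p <;> rfl
      rw [h1]
      refine generic_RI hx v ?_ ?_
      · rintro (r | r) ⟨i, s⟩ (r' | r') ⟨i', s'⟩ h
        · have h2 : (Sum.inr (Sum.inl (i, r, s)) : Sg a b c) = Sum.inr (Sum.inl (i', r', s')) := h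
          simp only [Sum.inr.injEq, Sum.inl.injEq, Prod.mk.injEq] at h2
          obtain ⟨rfl, rfl, rfl⟩ := h2
          exact ⟨rfl, rfl⟩
        · exact absurd h (by simp [v])
        · exact absurd h (by simp [v])
        · have h2 : (Sum.inl (i, r, s) : Sg a b c) = Sum.inl (i', r', s') := h
          simp only [Sum.inl.injEq, Prod.mk.injEq] at h2
          obtain ⟨rfl, rfl, rfl⟩ := h2
          exact ⟨rfl, rfl⟩
      · simp only [Fintype.card_sum, Fintype.card_prod, Fintype.card_fin]
        omega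
    have ht : ∃ U : Matrix (Fin (3 * (b - a))) (Fin c) K, t * U = 1 := by
      refine generic_RI hx (m := Fin c) (n := Fin (3 * (b - a)))
        (fun r s => Sum.inr (Sum.inr (Sum.inr (Sum.inr (Sum.inr (r, s)))))) ?_ ?_
      · intro i j i' j' h
        simp only [Sum.inr.injEq, Prod.mk.injEq] at h
        exact h
      · simpa using hc
    have hB : ∃ U : Matrix (Fin 3 × Fin b) (Fin c) K, cat B * U = 1 := by
      rw [hBcat]
      exact RI_mul ht hSK
    obtain ⟨hA, hBT, hP, hQ, hR⟩ := recover T A B C P Q R (fun i => (hblk i).1)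
      (fun i => (hblk i).2.1) (fun i => (hblk i).2.2.1) (fun i => (hblk i).2.2.2.1)
      (fun i => (hblk i).2.2.2.2) hCA hB
    have hFT : F ≤ T := by
      refine IntermediateField.adjoin_le_iff.2 ?_
      rintro z ⟨i, r, s, rfl⟩
      exact hA i r s
    have htT : In T t := by
      have h1 : In T SK := fun l p => hFT (hSKF l p)
      refine h1.of_mul hSK ?_
      rw [← hBcat]
      exact In_cat hBT
    rintro (⟨i, r, s⟩ | ⟨i, r, s⟩ | ⟨r, s⟩ | ⟨r, s⟩ | ⟨r, s⟩ | ⟨r, s⟩)
    · exact hA i r s
    · exact (hblk i).1 r s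
    · exact hP r s
    · exact hR r s
    · exact hQ r s
    · exact htT r s

end gen

theorem t_B : StB.{u} := by
  intro k _ a b c hab hbc hc
  let K := FractionRing (MvPolynomial (Sg a b c) k)
  let xx : Sg a b c → K := fun s => algebraMap (MvPolynomial (Sg a b c) k) K (MvPolynomial.X s)
  have hx : AlgebraicIndependent k xx :=
    (MvPolynomial.algebraicIndependent_X (Sg a b c) k).map'
      (f := IsScalarTower.toAlgHom k (MvPolynomial (Sg a b c) k) K)
      (IsFractionRing.injective (MvPolynomial (Sg a b c) k) K)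
  obtain ⟨M, h1, h2, h3⟩ := main a b c hbc hc xx hx
  let e : Fin (4 * a * b + 4 * b * c + a * c) ≃ Sg a b c :=
    (Fintype.equivFinOfCardEq (card_Sg hab)).symm
  exact ⟨K, inferInstance, inferInstance, fun s => xx (e s), M, hx.comp e e.injective, h1, h2,
    fun s => h3 (e s)⟩

end Pool.Agent.R339.CN
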